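import Pool.Agent.Run7.h11.Terms

set_option autoImplicit false

open Run7.h11

/-- For every odd prime `p` there is a finite list `E` of identities of Lie rings, forcing
`p x = 0`, such that the identity `[[[x, y], [x, z]], x] = 0` holds in every finite Lie ring
satisfying `E` but does not follow from `E`: the finitely based variety of Lie rings defined
by `E` is not generated by its finite members. -/
theorem Pool.Agent.Results.MP_f8e48a_lc.FiniteMembers.result (p : ℕ) (hp : p.Prime)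
    (h2 : p ≠ 2) :
    ∃ E : List (List (ℕ ⊕ ℕ) × List (ℕ ⊕ ℕ)),
      (∀ (L : Type) [LieRing L], (∀ e ∈ E, Holds L e) → ∀ x : L, p • x = 0) ∧
      (∀ (L : Type) [LieRing L] [Finite L], (∀ e ∈ E, Holds L e) →
        ∀ x y z : L, ⁅⁅⁅x, y⁆, ⁅x, z⁆⁆, x⁆ = 0) ∧
      ∃ (L : Type) (_ : LieRing L), (∀ e ∈ E, Holds L e) ∧
        ∃ x y z : L, ⁅⁅⁅x, y⁆, ⁅x, z⁆⁆, x⁆ ≠ 0 := by
  haveI : OddPrime p := ⟨hp, h2⟩
  have hp1 : p - 1 + 1 = p := Nat.sub_add_cancel hp.pos
  refine ⟨EE (p - 1), ?_, ?_, Af p, inferInstance, ?_, ?_⟩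
  · intro L _ h x
    have := char_of_EE h x
    rwa [hp1] at this
  · intro L _ _ h x y z
    exact Sg_zero (sys_of_EE h) x y z
  · refine EE_of_sys ?_ (sys_Af p)
    intro x
    rw [hp1]
    exact char_Af p x
  · exact af_fail p
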