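import Pool.Agent.Run7.h11.Coding

set_option autoImplicit false

open Run7.h11

/-- For every odd prime `p` there is a decidable set `E` of identities in the two variables
number `0` and `1`, which forces `p x = 0`, such that the set of all identities holding in every
Lie ring satisfying `E` is not computable, and neither is the set of all such identities in the
two variables number `0` and `1`. -/
theorem Pool.Agent.Results.MP_f8e48a_lc.RecursiveTwoVar.result (p : ℕ) (hp : p.Prime)
    (h2 : p ≠ 2) :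
    ∃ E : Set (List (ℕ ⊕ ℕ) × List (ℕ ⊕ ℕ)),
      ComputablePred (fun e => e ∈ E) ∧
      (∀ e ∈ E, TwoVar e) ∧
      (∀ (L : Type) [LieRing L], (∀ a ∈ E, Holds L a) → ∀ x : L, p • x = 0) ∧
      (¬ ComputablePred (fun e : List (ℕ ⊕ ℕ) × List (ℕ ⊕ ℕ) =>
        ∀ (L : Type) [LieRing L], (∀ a ∈ E, Holds L a) → Holds L e)) ∧
      ¬ ComputablePred (fun e : List (ℕ ⊕ ℕ) × List (ℕ ⊕ ℕ) =>
        TwoVar e ∧ ∀ (L : Type) [LieRing L], (∀ a ∈ E, Holds L a) → Holds L e) := by
  haveI : OddPrime p := ⟨hp, h2⟩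
  refine ⟨Ax p, computable_Ax p hp.one_lt, twoVar_Ax p, ?_, ?_, ?_⟩
  · intro L _ hL x
    have h := hL (pw p, [Sum.inr 0]) (Or.inl rfl) (fun _ => x)
    simp only at h
    rw [evalRPN_zero, evalRPN_pw] at h
    exact h
  · exact not_computable_of_test p fun c => Iff.rfl
  · exact not_computable_of_test p fun c => ⟨fun h => h.2, fun h => ⟨twoVar_wd _ _, h⟩⟩
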